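import Pool.Agent.Q256.Surv

/-!
A vertex-transitive graph of quadratic growth with survival number `2`: two copies of `ℤ²`, in one
of which a step changes the coordinates by at most `(2, 1)` and in the other by at most `(1, 2)`;
the two copies of a point are adjacent.
-/

namespace Pool.Agent.Results.MP_20f07a_co.TwoLayers

open SimpleGraph Pool.Agent.Q256.Surv

/-- `|B(v, r)|` is bounded by a linear function of `r` -/
def LinearGrowthAt {V : Type*} (G : SimpleGraph V) (v : V) : Prop :=
  ∃ a b : ℕ, ∀ r : ℕ, ({u | G.dist u v ≤ r} : Set V).ncard ≤ a * r + b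

/-! ### the survival number of an infinite vertex-transitive graph is at least two -/

theorem two_le {V : Type*} (G : SimpleGraph V) [Infinite V] [G.LocallyFinite] (hc : G.Connected)
    (hvt : VertexTransitive G) (T : Finset V) (hT : 2 ≤ T.card) : 2 ≤ numInfinite G T := by
  classical
  by_contra hcon
  obtain ⟨w, hwT, P, hPT, hPcard, hwP, hfin⟩ := exists_beaten G T (by omega)
  -- one rival suffices
  obtain ⟨p, hp⟩ : ∃ p : V, {u | G.dist u w ≤ G.dist u p}.Finite := by
    rcases Finset.eq_empty_or_nonempty P with h | ⟨p, hp⟩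
    · exfalso
      subst h
      simp only [Finset.notMem_empty, false_implies, implies_true] at hfin
      exact Set.infinite_univ hfin
    · refine ⟨p, hfin.subset ?_⟩
      intro u hu p' hp'
      have : p' = p := Finset.card_le_one.1 (by omega) p' hp' p hp
      rw [this]; exact hu
  -- a large radius
  obtain ⟨r, hr⟩ : ∃ r : ℕ, ∀ u ∈ {u | G.dist u w ≤ G.dist u p}, G.dist u p ≤ r := by
    obtain ⟨r, hr⟩ := (hp.image (fun u => G.dist u p)).bddAbove
    exact ⟨r, fun u hu => hr (Set.mem_image_of_mem _ hu)⟩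
  have hsub : {u | G.dist u w ≤ r + 1} ⊆ {u | G.dist u p ≤ r} := by
    intro u hu
    by_cases h : G.dist u w ≤ G.dist u p
    · exact hr u h
    · have hu' : G.dist u w ≤ r + 1 := hu
      change G.dist u p ≤ r
      omega
  -- balls around `w` and `p` have the same size
  obtain ⟨φ, hφ⟩ := hvt p w
  have hball : φ '' {u | G.dist u p ≤ r} ⊆ {u | G.dist u w ≤ r} := by
    rintro _ ⟨u, hu, rfl⟩
    change G.dist (φ u) w ≤ r
    have h1 : G.dist (φ u) (φ p) ≤ G.dist u p := by
      obtain ⟨q, hq⟩ := hc.exists_walk_length_eq_dist u p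
      rw [← hq]
      have := dist_le (q.map φ.toHom)
      rw [Walk.length_map] at this
      exact this
    rw [hφ] at h1
    exact h1.trans hu
  have hcard : ({u | G.dist u w ≤ r + 1} : Set V).ncard ≤ ({u | G.dist u w ≤ r} : Set V).ncard := by
    have h1 := Set.ncard_le_ncard hsub (finite_ball G hc p r)
    have h2 := Set.ncard_le_ncard hball (finite_ball G hc w r)
    rw [Set.ncard_image_of_injective _ φ.injective] at h2
    omega
  have heq : ({u | G.dist u w ≤ r} : Set V) = {u | G.dist u w ≤ r + 1} :=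
    Set.eq_of_subset_of_ncard_le (fun u hu => Nat.le_succ_of_le hu) hcard
      (finite_ball G hc w (r + 1))
  have hclosed : ∀ a b : V, G.Adj a b → G.dist a w ≤ r → G.dist b w ≤ r := by
    intro a b hab ha
    have h1 : G.dist b w ≤ G.dist b a + G.dist a w := hc.dist_triangle
    have h2 : G.dist b a ≤ 1 := (dist_eq_one_iff_adj.2 hab.symm).le
    have h3 : b ∈ ({u | G.dist u w ≤ r + 1} : Set V) := by
      change G.dist b w ≤ r + 1
      omega
    rw [← heq] at h3
    exact h3
  have hwalk : ∀ (a b : V) (_ : G.Walk a b), G.dist a w ≤ r → G.dist b w ≤ r := by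
    intro a b q
    induction q with
    | nil => exact id
    | cons hab q ih => exact fun ha => ih (hclosed _ _ hab ha)
  have hall : ∀ u : V, G.dist u w ≤ r := by
    intro u
    obtain ⟨q⟩ := hc.preconnected w u
    exact hwalk w u q (by simp)
  exact Set.infinite_univ ((finite_ball G hc w r).subset (fun u _ => hall u))

/-! ### the graph -/

/-- horizontal range of a step in a layer -/
def wx (s : Bool) : ℤ := if s then 2 else 1

/-- vertical range of a step in a layer -/
def wy (s : Bool) : ℤ := if s then 1 else 2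

/-- vertices: layer and coordinates -/
abbrev V := Bool × ℤ × ℤ

/-- the graph -/
def G : SimpleGraph V where
  Adj u v := u ≠ v ∧ ((u.1 = v.1 ∧ |u.2.1 - v.2.1| ≤ wx u.1 ∧ |u.2.2 - v.2.2| ≤ wy u.1) ∨
    u.2 = v.2)
  symm := ⟨by
    rintro u v ⟨h, ⟨h1, h2, h3⟩ | h1⟩
    · refine ⟨h.symm, Or.inl ⟨h1.symm, ?_, ?_⟩⟩
      · rw [← h1, abs_sub_comm]; exact h2
      · rw [← h1, abs_sub_comm]; exact h3
    · exact ⟨h.symm, Or.inr h1.symm⟩⟩
  loopless := ⟨fun u h => h.1 rfl⟩

theorem wx_pos (s : Bool) : 1 ≤ wx s := by cases s <;> simp [wx]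
theorem wy_pos (s : Bool) : 1 ≤ wy s := by cases s <;> simp [wy]

/-- the clamped step -/
theorem clamp (k : ℤ) (hk : 0 ≤ k) (a : ℕ) (x x' : ℤ) (h : |x - x'| ≤ k * (a + 1)) :
    ∃ x₁ : ℤ, |x - x₁| ≤ k ∧ |x₁ - x'| ≤ k * a := by
  have h0 : k * (a + 1) = k * a + k := by ring
  have h1 : 0 ≤ k * (a : ℤ) := by positivity
  rw [h0, abs_le] at h
  by_cases h2 : x' - x > k
  · refine ⟨x + k, ?_, ?_⟩ <;> rw [abs_le] <;> constructor <;> linarith
  · by_cases h3 : x' - x < -k
    · refine ⟨x - k, ?_, ?_⟩ <;> rw [abs_le] <;> constructor <;> linarith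
    · refine ⟨x', ?_, ?_⟩ <;> rw [abs_le] <;> constructor <;> linarith

theorem layer_walk (s : Bool) (a : ℕ) : ∀ x y x' y' : ℤ, |x - x'| ≤ wx s * a →
    |y - y'| ≤ wy s * a → ∃ q : G.Walk (s, x, y) (s, x', y'), q.length ≤ a := by
  induction a with
  | zero =>
    intro x y x' y' hx hy
    simp only [Nat.cast_zero, mul_zero, abs_nonpos_iff] at hx hy
    obtain rfl : x = x' := by omega
    obtain rfl : y = y' := by omega
    exact ⟨Walk.nil, by simp⟩
  | succ a ih =>
    intro x y x' y' hx hy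
    push_cast at hx hy
    obtain ⟨x₁, h1, h2⟩ := clamp (wx s) (by have := wx_pos s; omega) a x x' hx
    obtain ⟨y₁, h3, h4⟩ := clamp (wy s) (by have := wy_pos s; omega) a y y' hy
    obtain ⟨q, hq⟩ := ih x₁ y₁ x' y' h2 h4
    by_cases h : ((s, x, y) : V) = (s, x₁, y₁)
    · rw [h]
      exact ⟨q, by omega⟩
    · have hadj : G.Adj (s, x, y) (s, x₁, y₁) := ⟨h, Or.inl ⟨rfl, h1, h3⟩⟩
      exact ⟨Walk.cons hadj q, by rw [Walk.length_cons]; omega⟩

theorem switch_adj (s t : Bool) (h : s ≠ t) (z : ℤ × ℤ) : G.Adj (s, z) (t, z) :=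
  ⟨fun e => h (congrArg Prod.fst e), Or.inr rfl⟩

theorem G_conn : G.Connected := by
  have h0 : ∀ s : Bool, ∀ z z' : ℤ × ℤ, G.Reachable (s, z) (s, z') := by
    rintro s ⟨x, y⟩ ⟨x', y'⟩
    have h1 := wx_pos s
    have h2 := wy_pos s
    obtain ⟨q, -⟩ := layer_walk s (|x - x'| + |y - y'|).toNat x y x' y' (by
      have h3 := abs_nonneg (x - x')
      have h4 := abs_nonneg (y - y')
      rw [Int.toNat_of_nonneg (by omega)]
      nlinarith) (by
      have h3 := abs_nonneg (x - x')
      have h4 := abs_nonneg (y - y')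
      rw [Int.toNat_of_nonneg (by omega)]
      nlinarith)
    exact ⟨q⟩
  refine ⟨?_⟩
  rintro ⟨s, z⟩ ⟨t, z'⟩
  by_cases h : s = t
  · subst h; exact h0 s z z'
  · exact (switch_adj s t h z).reachable.trans (h0 t z z')

theorem dist_layer (s : Bool) (a : ℕ) (x y x' y' : ℤ) (hx : |x - x'| ≤ wx s * a)
    (hy : |y - y'| ≤ wy s * a) : G.dist (s, x, y) (s, x', y') ≤ a := by
  obtain ⟨q, hq⟩ := layer_walk s a x y x' y' hx hy
  exact (dist_le q).trans hq

theorem dist_switch (s t : Bool) (z : ℤ × ℤ) : G.dist (s, z) (t, z) ≤ 1 := by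
  by_cases h : s = t
  · subst h; simp
  · exact (dist_eq_one_iff_adj.2 (switch_adj s t h z)).le

/-- lower bounds from Lipschitz functions -/
theorem lower (f : V → ℤ) (hf : ∀ u v, G.Adj u v → f u ≤ f v + 1) (u w : V) :
    f u ≤ f w + G.dist u w := by
  obtain ⟨q, hq⟩ := G_conn.exists_walk_length_eq_dist u w
  rw [← hq]
  clear hq
  induction q with
  | nil => simp
  | cons hab q ih =>
    have h1 := hf _ _ hab
    rw [Walk.length_cons]
    push_cast
    omega

noncomputable instance instLF : G.LocallyFinite := fun v => by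
  apply Set.Finite.fintype
  refine (Finset.finite_toSet ((Finset.univ : Finset Bool) ×ˢ
    (Finset.Icc (v.2.1 - 2) (v.2.1 + 2) ×ˢ Finset.Icc (v.2.2 - 2) (v.2.2 + 2)))).subset ?_
  intro u hu
  obtain ⟨-, h⟩ : G.Adj v u := hu
  rw [Finset.mem_coe, Finset.mem_product, Finset.mem_product, Finset.mem_Icc, Finset.mem_Icc]
  refine ⟨Finset.mem_univ _, ?_⟩
  have e1 : wx v.1 ≤ 2 := by cases v.1 <;> simp [wx]
  have e2 : wy v.1 ≤ 2 := by cases v.1 <;> simp [wy]
  rcases h with ⟨-, h1, h2⟩ | h
  · rw [abs_le] at h1 h2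
    omega
  · rw [h]; omega

/-! ### vertex-transitivity -/

/-- translations -/
def shift (a b : ℤ) : G ≃g G where
  toFun u := (u.1, u.2.1 + a, u.2.2 + b)
  invFun u := (u.1, u.2.1 - a, u.2.2 - b)
  left_inv u := by simp
  right_inv u := by simp
  map_rel_iff' := by
    intro u v
    change (_ ≠ _ ∧ ((u.1 = v.1 ∧ |u.2.1 + a - (v.2.1 + a)| ≤ wx u.1 ∧
      |u.2.2 + b - (v.2.2 + b)| ≤ wy u.1) ∨ (u.2.1 + a, u.2.2 + b) = (v.2.1 + a, v.2.2 + b))) ↔
      (u ≠ v ∧ ((u.1 = v.1 ∧ |u.2.1 - v.2.1| ≤ wx u.1 ∧ |u.2.2 - v.2.2| ≤ wy u.1) ∨ u.2 = v.2))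
    rw [add_sub_add_right_eq_sub, add_sub_add_right_eq_sub]
    refine and_congr (not_congr ?_) (or_congr Iff.rfl ?_)
    · simp [Prod.ext_iff]
    · simp [Prod.ext_iff]

/-- the swap -/
def swap : G ≃g G where
  toFun u := (!u.1, u.2.2, u.2.1)
  invFun u := (!u.1, u.2.2, u.2.1)
  left_inv u := by simp
  right_inv u := by simp
  map_rel_iff' := by
    intro u v
    change (_ ≠ _ ∧ (((!u.1) = (!v.1) ∧ |u.2.2 - v.2.2| ≤ wx (!u.1) ∧
      |u.2.1 - v.2.1| ≤ wy (!u.1)) ∨ (u.2.2, u.2.1) = (v.2.2, v.2.1))) ↔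
      (u ≠ v ∧ ((u.1 = v.1 ∧ |u.2.1 - v.2.1| ≤ wx u.1 ∧ |u.2.2 - v.2.2| ≤ wy u.1) ∨ u.2 = v.2))
    have e1 : wx (!u.1) = wy u.1 := by cases u.1 <;> rfl
    have e2 : wy (!u.1) = wx u.1 := by cases u.1 <;> rfl
    rw [e1, e2]
    refine and_congr (not_congr ?_) (or_congr ?_ ?_)
    · simp [Prod.ext_iff]; tauto
    · simp; tauto
    · simp [Prod.ext_iff]; tauto

theorem G_vt : VertexTransitive G := by
  intro u v
  by_cases h : u.1 = v.1
  · refine ⟨shift (v.2.1 - u.2.1) (v.2.2 - u.2.2), ?_⟩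
    change ((u.1, u.2.1 + (v.2.1 - u.2.1), u.2.2 + (v.2.2 - u.2.2)) : V) = v
    rw [h]
    simp
  · refine ⟨swap.trans (shift (v.2.1 - u.2.2) (v.2.2 - u.2.1)), ?_⟩
    change ((!u.1, u.2.2 + (v.2.1 - u.2.2), u.2.1 + (v.2.2 - u.2.1)) : V) = v
    have h1 : (!u.1) = v.1 := by
      revert h
      cases u.1 <;> cases v.1 <;> simp
    rw [h1]
    simp

/-! ### growth -/

theorem growth (v : V) : ¬ LinearGrowthAt G v := by
  rintro ⟨a, b, h⟩
  -- the ball of radius `r` contains a square
  have key : ∀ r : ℕ, (r + 1) * (r + 1) ≤ ({u | G.dist u v ≤ r} : Set V).ncard := by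
    intro r
    have hinj : Function.Injective
        (fun z : Fin (r + 1) × Fin (r + 1) => ((v.1, v.2.1 + z.1, v.2.2 + z.2) : V)) := by
      intro z z' hz
      have h1 : v.2.1 + (z.1 : ℤ) = v.2.1 + z'.1 := congrArg (fun u : V => u.2.1) hz
      have h2 : v.2.2 + (z.2 : ℤ) = v.2.2 + z'.2 := congrArg (fun u : V => u.2.2) hz
      refine Prod.ext (Fin.ext (by omega)) (Fin.ext (by omega))
    have h1 : Set.range (fun z : Fin (r + 1) × Fin (r + 1) =>
        ((v.1, v.2.1 + z.1, v.2.2 + z.2) : V)) ⊆ {u | G.dist u v ≤ r} := by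
      rintro _ ⟨z, rfl⟩
      have h2 := wx_pos v.1
      have h3 := wy_pos v.1
      have h4 : ((z.1 : ℕ) : ℤ) ≤ r := by have := z.1.2; omega
      have h5 : ((z.2 : ℕ) : ℤ) ≤ r := by have := z.2.2; omega
      refine dist_layer v.1 r _ _ _ _ ?_ ?_
      · rw [add_sub_cancel_left, abs_of_nonneg (by positivity)]
        nlinarith
      · rw [add_sub_cancel_left, abs_of_nonneg (by positivity)]
        nlinarith
    have h2 := Set.ncard_le_ncard h1 (finite_ball G G_conn v r)
    rw [← Set.image_univ, Set.ncard_image_of_injective _ hinj, Set.ncard_univ,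
      Nat.card_eq_fintype_card, Fintype.card_prod, Fintype.card_fin] at h2
    exact h2
  have h1 := key (a + b)
  have h2 := h (a + b)
  nlinarith

/-! ### the configuration -/

/-- the two rivals -/
def rival (N : ℤ) (e : Bool) : V := (true, 0, if e then N else -N)

/-- first Lipschitz function: a vertex of the other layer is one further in the `x`-direction -/
def f₁ (u : V) : ℤ := if u.1 then 1 + (|u.2.1| + 1) / 2 else min |u.2.1| (2 + (|u.2.1| + 1) / 2)

theorem f₁_lip (u v : V) (h : G.Adj u v) : f₁ u ≤ f₁ v + 1 := by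
  obtain ⟨s, x, y⟩ := u
  obtain ⟨t, x', y'⟩ := v
  obtain ⟨-, ⟨h1, h2, -⟩ | h⟩ := h
  · simp only at h1 h2
    subst h1
    cases s
    · simp only [wx, f₁] at h2 ⊢
      simp only [Bool.false_eq_true, if_false] at h2 ⊢
      rw [abs_le] at h2
      have e1 := abs_nonneg x
      have e2 := abs_nonneg x'
      rcases abs_cases x with ⟨a1, a2⟩ | ⟨a1, a2⟩ <;>
        rcases abs_cases x' with ⟨b1, b2⟩ | ⟨b1, b2⟩ <;> rw [a1, b1] <;> omega
    · simp only [wx, f₁] at h2 ⊢
      simp only [if_true] at h2 ⊢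
      rw [abs_le] at h2
      rcases abs_cases x with ⟨a1, a2⟩ | ⟨a1, a2⟩ <;>
        rcases abs_cases x' with ⟨b1, b2⟩ | ⟨b1, b2⟩ <;> rw [a1, b1] <;> omega
  · simp only [Prod.mk.injEq] at h
    obtain ⟨rfl, rfl⟩ := h
    have e1 := abs_nonneg x
    cases s <;> cases t <;> simp only [f₁, Bool.false_eq_true, if_false, if_true] <;> omega

theorem f₂_lip (u v : V) (h : G.Adj u v) : (|u.2.1| + |u.2.2| + 2) / 3 ≤
    (|v.2.1| + |v.2.2| + 2) / 3 + 1 := by
  obtain ⟨s, x, y⟩ := u
  obtain ⟨t, x', y'⟩ := v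
  have h0 : |x| + |y| ≤ |x'| + |y'| + 3 := by
    have e1 : |x| ≤ |x'| + |x - x'| := by
      have := abs_add_le x' (x - x')
      simpa using this
    have e2 : |y| ≤ |y'| + |y - y'| := by
      have := abs_add_le y' (y - y')
      simpa using this
    obtain ⟨-, ⟨h1, h2, h3⟩ | h⟩ := h
    · simp only at h2 h3
      have : wx s + wy s = 3 := by cases s <;> simp [wx, wy]
      omega
    · simp only [Prod.mk.injEq] at h
      obtain ⟨rfl, rfl⟩ := h
      omega
  simp only
  omega

theorem f₃_lip (u v : V) (h : G.Adj u v) : (|u.2.2| + 1) / 2 ≤ (|v.2.2| + 1) / 2 + 1 := by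
  obtain ⟨s, x, y⟩ := u
  obtain ⟨t, x', y'⟩ := v
  have h0 : |y| ≤ |y'| + 2 := by
    have e2 : |y| ≤ |y'| + |y - y'| := by
      have := abs_add_le y' (y - y')
      simpa using this
    obtain ⟨-, ⟨h1, h2, h3⟩ | h⟩ := h
    · simp only at h2 h3
      have : wy s ≤ 2 := by cases s <;> simp [wy]
      omega
    · simp only [Prod.mk.injEq] at h
      obtain ⟨rfl, rfl⟩ := h
      omega
  simp only
  omega

/-- `w = (false, 0, 0)`: lower bounds -/
theorem lower_w (s : Bool) (x y : ℤ) :
    f₁ (s, x, y) ≤ G.dist (s, x, y) (false, 0, 0) ∧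
    |x| + |y| ≤ 3 * (G.dist (s, x, y) (false, 0, 0) : ℤ) ∧
    |y| ≤ 2 * (G.dist (s, x, y) (false, 0, 0) : ℤ) := by
  have h1 := lower f₁ f₁_lip (s, x, y) (false, 0, 0)
  have h2 := lower (fun u => (|u.2.1| + |u.2.2| + 2) / 3) f₂_lip (s, x, y) (false, 0, 0)
  have h3 := lower (fun u => (|u.2.2| + 1) / 2) f₃_lip (s, x, y) (false, 0, 0)
  simp only [f₁, abs_zero] at h1 h2 h3 ⊢
  simp only [Bool.false_eq_true, if_false] at h1
  norm_num at h1 h2 h3
  refine ⟨h1, by omega, by omega⟩

/-- upper bounds for a rival -/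
theorem upper (s : Bool) (x y z : ℤ) :
    (|y - z| ≤ (|x| + 1) / 2 → (G.dist (s, x, y) (true, 0, z) : ℤ) ≤ (|x| + 1) / 2 +
      (if s then 0 else 1)) ∧
    ((|x| + 1) / 2 < |y - z| → |y - z| ≤ 2 * |x| →
      3 * (G.dist (s, x, y) (true, 0, z) : ℤ) ≤ |x| + |y - z| + 10) ∧
    (2 * |x| < |y - z| → 2 * (G.dist (s, x, y) (true, 0, z) : ℤ) ≤ |y - z| + 5) := by
  have hx := abs_nonneg x
  have hy := abs_nonneg (y - z)
  refine ⟨?_, ?_, ?_⟩
  · intro h
    have h1 := dist_layer true ((|x| + 1) / 2).toNat x y 0 z (by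
      rw [Int.toNat_of_nonneg (by omega)]
      simp only [wx, if_true, sub_zero]
      omega) (by
      rw [Int.toNat_of_nonneg (by omega)]
      simp only [wy, if_true]
      omega)
    cases s
    · have h2 : G.dist (false, x, y) (true, 0, z) ≤ G.dist (false, x, y) (true, x, y) +
        G.dist (true, x, y) (true, 0, z) := G_conn.dist_triangle
      have h3 := dist_switch false true (x, y)
      simp only [Bool.false_eq_true, if_false]
      omega
    · simp only [if_true]
      omega
  · intro h1 h2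
    -- intermediate point: `a` steps in the first layer, `b` steps in the second
    set a : ℤ := (2 * |x| - |y - z| + 2) / 3 with ha
    set b : ℤ := (2 * |y - z| - |x| + 2) / 3 with hb
    obtain ⟨x₁, hx1, hx2⟩ : ∃ x₁ : ℤ, |x - x₁| ≤ b ∧ |x₁| ≤ 2 * a := by
      rcases abs_cases x with ⟨e1, e2⟩ | ⟨e1, e2⟩
      · refine ⟨max 0 (x - b), ?_, ?_⟩ <;> rw [abs_le] <;> constructor <;> omega
      · refine ⟨min 0 (x + b), ?_, ?_⟩ <;> rw [abs_le] <;> constructor <;> omega
    obtain ⟨y₁, hy1, hy2⟩ : ∃ y₁ : ℤ, |y - y₁| ≤ 2 * b ∧ |y₁ - z| ≤ a := by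
      rcases abs_cases (y - z) with ⟨e1, e2⟩ | ⟨e1, e2⟩
      · refine ⟨max z (y - 2 * b), ?_, ?_⟩ <;> rw [abs_le] <;> constructor <;> omega
      · refine ⟨min z (y + 2 * b), ?_, ?_⟩ <;> rw [abs_le] <;> constructor <;> omega
    have ha0 : 0 ≤ a := by omega
    have hb0 : 0 ≤ b := by omega
    have k1 := dist_layer false b.toNat x y x₁ y₁ (by
      rw [Int.toNat_of_nonneg hb0]
      simp only [wx, Bool.false_eq_true, if_false]
      omega) (by
      rw [Int.toNat_of_nonneg hb0]
      simp only [wy, Bool.false_eq_true, if_false]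
      omega)
    have k2 := dist_layer true a.toNat x₁ y₁ 0 z (by
      rw [Int.toNat_of_nonneg ha0]
      simp only [wx, if_true, sub_zero]
      omega) (by
      rw [Int.toNat_of_nonneg ha0]
      simp only [wy, if_true]
      omega)
    have k3 := dist_switch s false (x, y)
    have k4 := dist_switch false true (x₁, y₁)
    have t1 : G.dist (s, x, y) (true, 0, z) ≤ G.dist (s, x, y) (false, x, y) +
      G.dist (false, x, y) (true, 0, z) := G_conn.dist_triangle
    have t2 : G.dist (false, x, y) (true, 0, z) ≤ G.dist (false, x, y) (false, x₁, y₁) +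
      G.dist (false, x₁, y₁) (true, 0, z) := G_conn.dist_triangle
    have t3 : G.dist (false, x₁, y₁) (true, 0, z) ≤ G.dist (false, x₁, y₁) (true, x₁, y₁) +
      G.dist (true, x₁, y₁) (true, 0, z) := G_conn.dist_triangle
    omega
  · intro h
    set b : ℤ := (|y - z| + 1) / 2 with hb
    have hb0 : 0 ≤ b := by omega
    have k1 := dist_layer false b.toNat x y 0 z (by
      rw [Int.toNat_of_nonneg hb0]
      simp only [wx, Bool.false_eq_true, if_false, sub_zero]
      omega) (by
      rw [Int.toNat_of_nonneg hb0]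
      simp only [wy, Bool.false_eq_true, if_false]
      omega)
    have k3 := dist_switch s false (x, y)
    have k4 := dist_switch false true (0, z)
    have t1 : G.dist (s, x, y) (true, 0, z) ≤ G.dist (s, x, y) (false, x, y) +
      G.dist (false, x, y) (true, 0, z) := G_conn.dist_triangle
    have t2 : G.dist (false, x, y) (true, 0, z) ≤ G.dist (false, x, y) (false, 0, z) +
      G.dist (false, 0, z) (true, 0, z) := G_conn.dist_triangle
    omega

theorem beat (N : ℤ) (hN : 12 ≤ N) (s : Bool) (x y : ℤ) (hfar : 4 * N < |x| ∨ 4 * N < |y|) :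
    ∃ e, G.dist (s, x, y) (rival N e) < G.dist (s, x, y) (false, 0, 0) := by
  refine ⟨decide (0 ≤ y), ?_⟩
  have hyN : |y - (if (decide (0 ≤ y)) then N else -N)| = |(|y| - N)| := by
    by_cases hy : 0 ≤ y
    · simp only [hy, decide_true, if_true]
      rw [abs_of_nonneg hy]
    · simp only [hy, decide_false, Bool.false_eq_true, if_false]
      rw [abs_of_neg (not_le.1 hy), ← abs_neg]
      congr 1
      ring
  obtain ⟨l1, l2, l3⟩ := lower_w s x y
  obtain ⟨u1, u2, u3⟩ := upper s x y (if (decide (0 ≤ y)) then N else -N)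
  rw [hyN] at u1 u2 u3
  change G.dist (s, x, y) (true, 0, if (decide (0 ≤ y)) then N else -N) < _
  generalize (if (decide (0 ≤ y)) then N else -N) = z at *
  have hx := abs_nonneg x
  have hy := abs_nonneg y
  rcases abs_cases (|y| - N) with ⟨e1, e2⟩ | ⟨e1, e2⟩
  · rw [e1] at u1 u2 u3
    by_cases c1 : |y| - N ≤ (|x| + 1) / 2
    · have := u1 c1
      cases s <;> simp only [f₁, Bool.false_eq_true, if_false, if_true] at l1 this <;> omega
    · by_cases c2 : |y| - N ≤ 2 * |x|
      · have := u2 (by omega) c2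
        omega
      · have := u3 (by omega)
        omega
  · rw [e1] at u1 u2 u3
    have := u1 (by omega)
    cases s <;> simp only [f₁, Bool.false_eq_true, if_false, if_true] at l1 this <;> omega

theorem G_survival_le : survival G ≤ 2 := by
  classical
  refine survival_le G G_conn 2 ?_
  intro d
  set N : ℤ := 2 * (d : ℤ) + 12 with hN
  have h0 : ∀ e : Bool, d < G.dist (rival N e) (false, 0, 0) := by
    intro e
    have h1 := (lower_w true 0 (if e then N else -N)).2.2
    change d < G.dist (true, 0, if e then N else -N) (false, 0, 0)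
    cases e
    · simp only [Bool.false_eq_true, if_false, abs_neg] at h1 ⊢
      rw [abs_of_nonneg (by omega)] at h1
      omega
    · simp only [if_true] at h1 ⊢
      rw [abs_of_nonneg (by omega)] at h1
      omega
  have h1 : d < G.dist (rival N true) (rival N false) := by
    have h3 := lower (fun u => (|u.2.2 + N| + 1) / 2) (by
      intro u v huv
      have := f₃_lip ((shift 0 N) u) ((shift 0 N) v) ((shift 0 N).map_rel_iff.2 huv)
      exact this) (rival N true) (rival N false)
    simp only [rival, Bool.false_eq_true, if_false, if_true] at h3 ⊢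
    rw [neg_add_cancel, abs_zero, abs_of_nonneg (by omega)] at h3
    omega
  have hne : ∀ e, rival N e ≠ (false, 0, 0) := by
    intro e h
    have := congrArg Prod.fst h
    simp [rival] at this
  have hne2 : rival N true ≠ rival N false := by
    intro h
    rw [h] at h1
    simp at h1
  refine ⟨{(false, 0, 0), rival N true, rival N false}, ?_, ?_, (false, 0, 0), by simp, ?_⟩
  · rw [Finset.card_insert_of_notMem, Finset.card_insert_of_notMem, Finset.card_singleton]
    · simpa using hne2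
    · simp only [Finset.mem_insert, Finset.mem_singleton, not_or]
      exact ⟨(hne true).symm, (hne false).symm⟩
  · intro v₁ hv₁ v₂ hv₂ hv
    simp only [Finset.mem_insert, Finset.mem_singleton] at hv₁ hv₂
    rcases hv₁ with rfl | rfl | rfl <;> rcases hv₂ with rfl | rfl | rfl
    · exact absurd rfl hv
    · rw [dist_comm]; exact h0 true
    · rw [dist_comm]; exact h0 false
    · exact h0 true
    · exact absurd rfl hv
    · exact h1
    · exact h0 false
    · rw [dist_comm]; exact h1
    · exact absurd rfl hv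
  · refine (Finset.finite_toSet ((Finset.univ : Finset Bool) ×ˢ
      (Finset.Icc (-(4 * N)) (4 * N) ×ˢ Finset.Icc (-(4 * N)) (4 * N)))).subset ?_
    rintro ⟨s, x, y⟩ hu
    rw [Finset.mem_coe, Finset.mem_product, Finset.mem_product, Finset.mem_Icc, Finset.mem_Icc,
      ← abs_le, ← abs_le]
    refine ⟨Finset.mem_univ _, ?_⟩
    by_contra hcon
    have hfar : 4 * N < |x| ∨ 4 * N < |y| := by
      simp only at hcon
      by_contra h
      push Not at h
      exact hcon h
    obtain ⟨e, he⟩ := beat N (by omega) s x y hfar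
    have h2 := hu (rival N e) (by cases e <;> simp)
    omega

theorem result : ∃ (V : Type) (G : SimpleGraph V) (_ : G.LocallyFinite),
    Infinite V ∧ G.Connected ∧ VertexTransitive G ∧ (∀ v, ¬ LinearGrowthAt G v) ∧
    survival G = 2 := by
  refine ⟨V, G, instLF, inferInstance, G_conn, G_vt, growth, le_antisymm G_survival_le ?_⟩
  unfold survival
  exact le_iSup₂_of_le (f := fun (n : ℕ) _ => (n : ℕ∞)) 2
    ⟨by norm_num, 0, fun T hT => two_le G G_conn G_vt T hT.1⟩ le_rfl

end Pool.Agent.Results.MP_20f07a_co.TwoLayers
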